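import Pool.Agent.Helper859.VG.JM

set_option autoImplicit false
open Finset Metric

/-!
An inner function with a zero-free factor `exp (-h)`, `Re h > 0`, is not a Blaschke product.
-/

namespace Pool.Agent.Y180.VM

open Filter Topology J1639

/-- factors of a Blaschke product cannot be cancelled by a zero-free factor -/
theorem key' (h : ℂ → ℂ) (hh : DifferentiableOn ℂ h (ball 0 1)) {ι : Type} (a : ι → ℂ) (ha : ∀ i, 0 < ‖a i‖ ∧ ‖a i‖ < 1)
    (hs : Summable (fun i => 1 - ‖a i‖)) (P B : ℂ → ℂ) (k : ℕ) (c : ℂ) (hc : ‖c‖ = 1)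
    (hP : ∀ z ∈ ball (0 : ℂ) 1, HasProd (fun i => bl (a i) z) (P z))
    (hB1 : ∀ z ∈ ball (0 : ℂ) 1, ‖B z‖ ≤ 1)
    (hI : ∀ z ∈ ball (0 : ℂ) 1, Complex.exp (-(h z)) * B z = c * z ^ k * P z)
    (s : Finset ι) (z0 : ℂ) (hz0 : z0 ∈ ball (0 : ℂ) 1) :
    ‖B z0‖ ≤ ‖z0‖ ^ k * ∏ i ∈ s, ‖bl (a i) z0‖ := by
  classical
  obtain ⟨R, hRd, hR⟩ := rest_diff (fun i : ((↑s : Set ι)ᶜ : Set ι) => a i) (fun i => ha i)
    (hs.comp_injective Subtype.val_injective)
  set F : ℂ → ℂ := fun z => z ^ k * ∏ i ∈ s, bl (a i) z with hF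
  set G : ℂ → ℂ := fun z => c * R z * Complex.exp (h z) with hG
  have hPR : ∀ z ∈ ball (0 : ℂ) 1, P z = (∏ i ∈ s, bl (a i) z) * R z := by
    intro z hz
    have h1 := Finset.hasProd s (fun i => bl (a i) z)
    have h2 := HasProd.mul_compl (s := (↑s : Set ι)) (f := fun i => bl (a i) z) h1 (hR z hz)
    exact (hP z hz).unique h2
  have hBF : ∀ z ∈ ball (0 : ℂ) 1, B z = F z * G z := by
    intro z hz
    have h1 := hI z hz
    rw [hPR z hz] at h1
    have h2 : Complex.exp (h z) * Complex.exp (-(h z)) = 1 := by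
      rw [← Complex.exp_add, add_neg_cancel, Complex.exp_zero]
    calc B z = (Complex.exp (h z) * Complex.exp (-(h z))) * B z := by rw [h2, one_mul]
      _ = Complex.exp (h z) * (Complex.exp (-(h z)) * B z) := by ring
      _ = _ := by rw [h1, hF, hG]; ring
  have hGd : DifferentiableOn ℂ G (ball 0 1) := by
    apply DifferentiableOn.mul (hRd.const_mul c)
    exact hh.cexp
  have hFc : ContinuousOn F (closedBall 0 1) := by
    apply ContinuousOn.mul (by fun_prop)
    apply continuousOn_finsetProd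
    intro i _
    exact continuousOn_bl (ha i).2
  have hF1 : ∀ z, ‖z‖ = 1 → ‖F z‖ = 1 := by
    intro z hz
    simp only [hF, norm_mul, norm_pow, hz, one_pow, one_mul, norm_prod]
    apply Finset.prod_eq_one
    intro i _
    exact norm_bl_sphere (ha i).1 (ha i).2 hz
  have hz01 : ‖z0‖ < 1 := by simpa using hz0
  have hG1 : ‖G z0‖ ≤ 1 := by
    by_contra hcon
    push Not at hcon
    -- choose ε with (1-ε)⁻¹ < ‖G z0‖
    set t : ℝ := ‖G z0‖⁻¹ with ht
    have ht1 : t < 1 := inv_lt_one_of_one_lt₀ hcon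
    have ht0 : 0 < t := by positivity
    -- compact set where ‖F‖ ≤ t
    let K : Set ℂ := closedBall 0 1 ∩ {z | ‖F z‖ ≤ t}
    have hKc : IsCompact K := by
      have : IsClosed K := by
        have := hFc.norm.preimage_isClosed_of_isClosed isClosed_closedBall (isClosed_Iic (a := t))
        exact this
      exact (isCompact_closedBall (0:ℂ) 1).of_isClosed_subset this Set.inter_subset_left
    have hex : ∃ ρ : ℝ, ρ < 1 ∧ ∀ z ∈ K, ‖z‖ ≤ ρ := by
      rcases K.eq_empty_or_nonempty with hK | hK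
      · exact ⟨0, by norm_num, by simp [hK]⟩
      · obtain ⟨w, hw, hwm⟩ := hKc.exists_isMaxOn hK continuous_norm.continuousOn
        refine ⟨‖w‖, ?_, fun z hz => hwm hz⟩
        have h1 : ‖w‖ ≤ 1 := by simpa using hw.1
        rcases h1.lt_or_eq with h | h
        · exact h
        · exfalso
          have h2 := hF1 w h
          have h3 : ‖F w‖ ≤ t := hw.2
          linarith
    obtain ⟨ρ, hρ, hρK⟩ := hex
    obtain ⟨r, hr1, hr2⟩ := exists_between (max_lt hρ hz01)
    have hr3 : ρ < r := lt_of_le_of_lt (le_max_left _ _) hr1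
    have hr4 : ‖z0‖ < r := lt_of_le_of_lt (le_max_right _ _) hr1
    have hr0 : 0 < r := lt_of_le_of_lt (norm_nonneg _) hr4
    -- on the sphere of radius r, ‖G‖ ≤ C < ‖G z0‖
    have hsph : ∀ z ∈ sphere (0 : ℂ) r, ‖G z‖ < ‖G z0‖ := by
      intro z hz
      have hz' : ‖z‖ = r := by simpa using hz
      have hFt : t < ‖F z‖ := by
        by_contra h
        push Not at h
        have := hρK z ⟨by simp [hz']; exact hr2.le, h⟩
        linarith
      have hb := hBF z (by simp [hz']; exact hr2)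
      have hb2 : ‖F z‖ * ‖G z‖ ≤ 1 := by
        rw [← norm_mul, ← hb]
        exact hB1 z (by simp [hz']; exact hr2)
      have hG0 : 0 < ‖G z0‖ := by linarith
      by_contra h
      push Not at h
      have : t * ‖G z0‖ = 1 := by rw [ht]; field_simp
      have h5 : t * ‖G z0‖ < ‖F z‖ * ‖G z‖ := by
        apply mul_lt_mul hFt h hG0 (norm_nonneg _)
      linarith
    -- max over sphere
    obtain ⟨w, hw, hwm⟩ := (isCompact_sphere (0 : ℂ) r).exists_isMaxOn
      (NormedSpace.sphere_nonempty.mpr hr0.le)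
      ((hGd.continuousOn.mono (fun z hz => by
        have : ‖z‖ = r := by simpa using hz
        simp [this]; exact hr2)).norm)
    have hmax : ‖G z0‖ ≤ ‖G w‖ := by
      apply Complex.norm_le_of_forall_mem_frontier_norm_le (U := ball (0 : ℂ) r) isBounded_ball
      · apply DiffContOnCl.mk_ball
        · exact hGd.mono (ball_subset_ball hr2.le)
        · exact hGd.continuousOn.mono (closedBall_subset_ball hr2)
      · intro z hz
        rw [frontier_ball _ (ne_of_gt hr0)] at hz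
        exact hwm hz
      · rw [closure_ball _ (ne_of_gt hr0)]
        simp; exact hr4.le
    exact absurd (hsph w hw) (not_lt.mpr hmax)
  calc ‖B z0‖ = ‖F z0‖ * ‖G z0‖ := by rw [hBF z0 hz0, norm_mul]
    _ ≤ ‖F z0‖ * 1 := mul_le_mul_of_nonneg_left hG1 (norm_nonneg _)
    _ = _ := by simp [hF, norm_mul, norm_pow, norm_prod]

/-- a function with a nontrivial zero-free bounded factor `exp (-h)` is not a Blaschke product -/
theorem not_blaschke' (h : ℂ → ℂ) (hh : DifferentiableOn ℂ h (ball 0 1))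
    (hre : ∀ z ∈ ball (0 : ℂ) 1, 0 < (h z).re) (I B : ℂ → ℂ) (hB1 : ∀ z ∈ ball (0 : ℂ) 1, ‖B z‖ ≤ 1)
    (hI : ∀ z ∈ ball (0 : ℂ) 1, I z = Complex.exp (-(h z)) * B z)
    (hne : ∃ z ∈ ball (0 : ℂ) 1, B z ≠ 0) : ¬ IsBlaschke I := by
  rintro ⟨ι, a, c, k, P, hc, ha, hs, hP, hIP⟩
  obtain ⟨z0, hz0, hBz⟩ := hne
  have hkey : ∀ s : Finset ι, ‖B z0‖ ≤ ‖z0‖ ^ k * ∏ i ∈ s, ‖J1639.bl (a i) z0‖ := by
    intro s
    apply key' h hh a ha hs P B k c hc hP hB1 _ s z0 hz0
    intro z hz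
    rw [← hI z hz, hIP z hz]
  have hlim : Filter.Tendsto (fun s : Finset ι => ‖z0‖ ^ k * ∏ i ∈ s, ‖J1639.bl (a i) z0‖) Filter.atTop
      (nhds (‖z0‖ ^ k * ‖P z0‖)) := by
    apply Filter.Tendsto.const_mul
    have h1 : Filter.Tendsto (fun s : Finset ι => ∏ i ∈ s, J1639.bl (a i) z0) Filter.atTop (nhds (P z0)) := hP z0 hz0
    have h2 := h1.norm
    simpa only [norm_prod] using h2
  have hle : ‖B z0‖ ≤ ‖z0‖ ^ k * ‖P z0‖ := ge_of_tendsto' hlim hkey
  have h3 : ‖I z0‖ = ‖z0‖ ^ k * ‖P z0‖ := by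
    rw [hIP z0 hz0, norm_mul, norm_mul, hc, one_mul, norm_pow]
  have h4 : ‖I z0‖ = Real.exp (-(h z0).re) * ‖B z0‖ := by
    rw [hI z0 hz0, norm_mul, Complex.norm_exp, Complex.neg_re]
  have h5 : 0 < (h z0).re := hre z0 hz0
  have h6 : Real.exp (-(h z0).re) < 1 := by
    rw [Real.exp_lt_one_iff]; linarith
  have h7 : 0 < ‖B z0‖ := norm_pos_iff.mpr hBz
  nlinarith

end Pool.Agent.Y180.VM
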