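import Pool.Agent.W19.GPR.RT

set_option autoImplicit false

/-!
Finite-section bounds for convolution operators on `ℓ^p(ℤ)`: duality, interpolation, products, rotations.
-/

open Filter Topology

namespace Pool.Agent.Y180.VM

/-- all finite sections of the convolution operator with kernel `φ` are bounded by `K` on `ℓ^p` -/
def FB (φ : ℤ → ℂ) (p K : ℝ) : Prop := ∀ (S S' : Finset ℤ) (a : ℤ → ℂ),
  ∑ m ∈ S', ‖∑ n ∈ S, a n * φ (m - n)‖ ^ p ≤ K ^ p * ∑ n ∈ S, ‖a n‖ ^ p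

theorem fb_refl {φ : ℤ → ℂ} {p K : ℝ} (h : FB φ p K) : FB (fun j => φ (-j)) p K := by
  intro S S' a
  have := h (S.map (Equiv.neg ℤ).toEmbedding) (S'.map (Equiv.neg ℤ).toEmbedding) (fun n => a (-n))
  simp only [Finset.sum_map, Equiv.coe_toEmbedding, Equiv.neg_apply, neg_neg] at this
  have e : ∀ m n : ℤ, -m - -n = -(m - n) := by
    intro m n
    ring
  simp only [e] at this
  exact this

/-- the dual sequence -/
noncomputable def bd (q : ℝ) (z : ℂ) : ℂ := (starRingEnd ℂ) z * ((‖z‖ ^ (q - 2) : ℝ) : ℂ)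

theorem bd_mul (q : ℝ) (hq : 0 < q) (z : ℂ) : bd q z * z = ((‖z‖ ^ q : ℝ) : ℂ) := by
  unfold bd
  rcases eq_or_ne z 0 with h | h
  · rw [h]
    simp [Real.zero_rpow hq.ne']
  · have h0 : 0 < ‖z‖ := norm_pos_iff.2 h
    have e1 : (starRingEnd ℂ) z * z = ((‖z‖ ^ 2 : ℝ) : ℂ) := by
      rw [mul_comm, Complex.mul_conj, Complex.normSq_eq_norm_sq]
    have e2 : ‖z‖ ^ 2 * ‖z‖ ^ (q - 2) = ‖z‖ ^ q := by
      have e3 : ‖z‖ ^ 2 = ‖z‖ ^ (2 : ℝ) := by
        exact_mod_cast (Real.rpow_natCast ‖z‖ 2).symm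
      rw [e3, ← Real.rpow_add h0]
      congr 1
      ring
    rw [mul_right_comm, e1, ← Complex.ofReal_mul, e2]

theorem bd_norm (q : ℝ) (hq : 1 < q) (z : ℂ) : ‖bd q z‖ = ‖z‖ ^ (q - 1) := by
  unfold bd
  rw [norm_mul, Complex.norm_conj, Complex.norm_real, Real.norm_eq_abs,
    abs_of_nonneg (Real.rpow_nonneg (norm_nonneg z) _)]
  rcases eq_or_ne z 0 with h | h
  · rw [h, norm_zero, zero_mul, Real.zero_rpow (by linarith)]
  · have h0 : 0 < ‖z‖ := norm_pos_iff.2 h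
    have e : q - 1 = 1 + (q - 2) := by ring
    rw [e, Real.rpow_add h0, Real.rpow_one]

theorem fb_dual' {φ : ℤ → ℂ} {p h : ℝ} (hp : 1 < p) (hh : 0 ≤ h) (hB : FB (fun j => φ (-j)) p h) :
    FB φ (p / (p - 1)) h := by
  intro S S' a
  obtain ⟨q, hq⟩ : ∃ q, q = p / (p - 1) := ⟨_, rfl⟩
  rw [← hq]
  have hp0 : 0 < p := by linarith
  have hp1 : 0 < p - 1 := by linarith
  have hq1 : 1 < q := by
    rw [hq, lt_div_iff₀ hp1]
    linarith
  have hq0 : 0 < q := by linarith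
  have hqp : (q - 1) * p = q := by
    rw [hq]
    field_simp
    ring
  have hconj : q.HolderConjugate p := by
    have h1 := Real.HolderConjugate.conjExponent hp
    have h2 : p.conjExponent = q := by
      rw [hq]
      rfl
    rw [h2] at h1
    exact h1.symm
  obtain ⟨T, hT⟩ : ∃ T : ℤ → ℂ, ∀ m, T m = ∑ n ∈ S, a n * φ (m - n) := ⟨_, fun _ => rfl⟩
  simp only [← hT]
  obtain ⟨A, hA⟩ : ∃ A, A = ∑ n ∈ S, ‖a n‖ ^ q := ⟨_, rfl⟩
  obtain ⟨Y, hY⟩ : ∃ Y, Y = ∑ m ∈ S', ‖T m‖ ^ q := ⟨_, rfl⟩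
  rw [← hA, ← hY]
  have hA0 : 0 ≤ A := by
    rw [hA]
    exact Finset.sum_nonneg fun n _ => Real.rpow_nonneg (norm_nonneg _) _
  have hY0 : 0 ≤ Y := by
    rw [hY]
    exact Finset.sum_nonneg fun n _ => Real.rpow_nonneg (norm_nonneg _) _
  obtain ⟨b, hb⟩ : ∃ b : ℤ → ℂ, b = fun m => bd q (T m) := ⟨_, rfl⟩
  obtain ⟨D, hD⟩ : ∃ D : ℤ → ℂ, ∀ n, D n = ∑ m ∈ S', b m * φ (-(n - m)) := ⟨_, fun _ => rfl⟩
  have hYc : (Y : ℂ) = ∑ n ∈ S, a n * D n := by
    have e1 : (Y : ℂ) = ∑ m ∈ S', b m * T m := by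
      rw [hY]
      push_cast
      refine Finset.sum_congr rfl fun m _ => ?_
      rw [hb]
      have := bd_mul q hq0 (T m)
      exact this.symm
    rw [e1]
    have e2 : ∀ m ∈ S', b m * T m = ∑ n ∈ S, b m * (a n * φ (m - n)) := by
      intro m _
      rw [hT, Finset.mul_sum]
    rw [Finset.sum_congr rfl e2, Finset.sum_comm]
    refine Finset.sum_congr rfl fun n _ => ?_
    rw [hD, Finset.mul_sum]
    refine Finset.sum_congr rfl fun m _ => ?_
    rw [neg_sub]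
    ring
  have hYle : Y ≤ A ^ (1 / q) * (h * Y ^ (1 / p)) := by
    have e1 : Y ≤ ∑ n ∈ S, ‖a n‖ * ‖D n‖ := by
      have h1 : Y = ‖(Y : ℂ)‖ := by
        rw [Complex.norm_real, Real.norm_eq_abs, abs_of_nonneg hY0]
      rw [h1, hYc]
      refine (norm_sum_le _ _).trans (le_of_eq ?_)
      exact Finset.sum_congr rfl fun n _ => norm_mul _ _
    refine e1.trans ((Real.inner_le_Lp_mul_Lq_of_nonneg S hconj (fun n _ => norm_nonneg _)
      (fun n _ => norm_nonneg _)).trans ?_)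
    rw [← hA]
    refine mul_le_mul_of_nonneg_left ?_ (Real.rpow_nonneg hA0 _)
    have e2 := hB S' S b
    simp only [← hD] at e2
    have e3 : ∑ n ∈ S', ‖b n‖ ^ p = Y := by
      rw [hY]
      refine Finset.sum_congr rfl fun m _ => ?_
      rw [hb]
      show ‖bd q (T m)‖ ^ p = _
      rw [bd_norm q hq1, ← Real.rpow_mul (norm_nonneg _), hqp]
    rw [e3] at e2
    have e4 : (∑ n ∈ S, ‖D n‖ ^ p) ^ (1 / p) ≤ (h ^ p * Y) ^ (1 / p) :=
      Real.rpow_le_rpow (Finset.sum_nonneg fun n _ => Real.rpow_nonneg (norm_nonneg _) _) e2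
        (by positivity)
    refine e4.trans (le_of_eq ?_)
    rw [Real.mul_rpow (Real.rpow_nonneg hh _) hY0, ← Real.rpow_mul hh, mul_one_div_cancel hp0.ne',
      Real.rpow_one]
  rcases hY0.eq_or_lt with h0 | h0
  · rw [← h0]
    exact mul_nonneg (Real.rpow_nonneg hh _) hA0
  · have hYp : 0 < Y ^ (1 / p) := Real.rpow_pos_of_pos h0 _
    have e1 : Y = Y ^ (1 / q) * Y ^ (1 / p) := by
      rw [← Real.rpow_add h0]
      have e2 : 1 / q + 1 / p = 1 := by
        rw [hq]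
        field_simp
        ring
      rw [e2, Real.rpow_one]
    have e3 : Y ^ (1 / q) * Y ^ (1 / p) ≤ (A ^ (1 / q) * h) * Y ^ (1 / p) := by
      rw [← e1, mul_assoc]
      exact hYle
    have e4 : Y ^ (1 / q) ≤ A ^ (1 / q) * h := le_of_mul_le_mul_right e3 hYp
    have e5 := Real.rpow_le_rpow (Real.rpow_nonneg hY0 _) e4 hq0.le
    rw [← Real.rpow_mul hY0, Real.mul_rpow (Real.rpow_nonneg hA0 _) hh, ← Real.rpow_mul hA0,
      one_div_mul_cancel hq0.ne', Real.rpow_one, Real.rpow_one] at e5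
    linarith

/-- duality: a multiplier of `ℓ^4` is a multiplier of `ℓ^p` for `4/3 ≤ p ≤ 4` -/
theorem fb_all {φ : ℤ → ℂ} {K : ℝ} (hK : 0 ≤ K) (h4 : FB φ 4 K) (p : ℝ) (hp : 4 / 3 ≤ p) (hp' : p ≤ 4) :
    FB φ p K := by
  have h43 : FB φ (4 / 3) K := by
    have := fb_dual' (by norm_num : (1 : ℝ) < 4) hK (fb_refl h4)
    have e : (4 : ℝ) / (4 - 1) = 4 / 3 := by norm_num
    rwa [e] at this
  intro S S' a
  exact Pool.Agent.W19.GPR.gp_rt (4 / 3) 4 p K (by norm_num) hp hp' hK S S' (fun m n => φ (m - n))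
    (fun a => h43 S S' a) (fun a => h4 S S' a) a

/-- products of analytic kernels -/
theorem fb_mul {φ ψ χ : ℤ → ℂ} {p K L : ℝ} (hK : 0 ≤ K) (hL : 0 ≤ L) (hφ : FB φ p K) (hψ : FB ψ p L)
    (hφ0 : ∀ n < 0, φ n = 0) (hψ0 : ∀ n < 0, ψ n = 0) (hχ0 : ∀ n < 0, χ n = 0)
    (hχ : ∀ n : ℕ, χ n = ∑ i ∈ Finset.range (n + 1), φ ((n - i : ℕ) : ℤ) * ψ i) : FB χ p (K * L) := by
  intro S S' a
  obtain ⟨N, hN⟩ : ∃ N : ℕ, ∀ x ∈ S ∪ S', -(N : ℤ) ≤ x ∧ x ≤ N := by
    refine ⟨∑ x ∈ S ∪ S', x.natAbs, fun x hx => ?_⟩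
    have := Finset.single_le_sum (f := fun x : ℤ => x.natAbs) (fun _ _ => Nat.zero_le _) hx
    omega
  have key : ∀ n ∈ S, ∀ m ∈ S', χ (m - n) = ∑ l ∈ Finset.Icc (-(N : ℤ)) N, ψ (l - n) * φ (m - l) := by
    intro n hn m hm
    have h1 := hN n (Finset.mem_union_left _ hn)
    have h2 := hN m (Finset.mem_union_right _ hm)
    rcases lt_or_ge m n with hmn | hmn
    · rw [hχ0 _ (by omega)]
      refine (Finset.sum_eq_zero fun l _ => ?_).symm
      rcases lt_or_ge l n with hl | hl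
      · rw [hψ0 _ (by omega), zero_mul]
      · rw [hφ0 _ (by omega), mul_zero]
    · obtain ⟨d, rfl⟩ := Int.exists_add_of_le hmn
      have hs : (Finset.Icc n (n + d)) ⊆ Finset.Icc (-(N : ℤ)) N := by
        intro x hx
        rw [Finset.mem_Icc] at hx ⊢
        omega
      rw [← Finset.sum_subset hs]
      · have e1 : n + (d : ℤ) - n = (d : ℕ) := by omega
        rw [e1, hχ d]
        refine Finset.sum_bij (fun i _ => n + (i : ℤ)) ?_ ?_ ?_ ?_
        · intro i hi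
          rw [Finset.mem_range] at hi
          rw [Finset.mem_Icc]
          omega
        · intro i _ j _ hij
          simpa using hij
        · intro l hl
          rw [Finset.mem_Icc] at hl
          refine ⟨(l - n).toNat, ?_, ?_⟩
          · rw [Finset.mem_range]
            omega
          · omega
        · intro i hi
          rw [Finset.mem_range] at hi
          have e2 : n + (d : ℤ) - (n + (i : ℤ)) = ((d - i : ℕ) : ℤ) := by omega
          have e3 : n + (i : ℤ) - n = (i : ℤ) := by omega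
          rw [e2, e3, mul_comm]
      · intro l _ hl
        rw [Finset.mem_Icc] at hl
        rcases lt_or_ge l n with hl' | hl'
        · rw [hψ0 _ (by omega), zero_mul]
        · rw [hφ0 _ (by omega), mul_zero]
  obtain ⟨b, hb⟩ : ∃ b : ℤ → ℂ, ∀ l, b l = ∑ n ∈ S, a n * ψ (l - n) := ⟨_, fun _ => rfl⟩
  have e1 : ∀ m ∈ S', ∑ n ∈ S, a n * χ (m - n) = ∑ l ∈ Finset.Icc (-(N : ℤ)) N, b l * φ (m - l) := by
    intro m hm
    rw [Finset.sum_congr rfl fun n hn => by rw [key n hn m hm]]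
    simp only [hb, Finset.mul_sum, Finset.sum_mul]
    rw [Finset.sum_comm]
    refine Finset.sum_congr rfl fun l _ => Finset.sum_congr rfl fun n _ => ?_
    ring
  calc ∑ m ∈ S', ‖∑ n ∈ S, a n * χ (m - n)‖ ^ p
      = ∑ m ∈ S', ‖∑ l ∈ Finset.Icc (-(N : ℤ)) N, b l * φ (m - l)‖ ^ p :=
        Finset.sum_congr rfl fun m hm => by rw [e1 m hm]
    _ ≤ K ^ p * ∑ l ∈ Finset.Icc (-(N : ℤ)) N, ‖b l‖ ^ p := hφ _ _ b
    _ ≤ K ^ p * (L ^ p * ∑ n ∈ S, ‖a n‖ ^ p) := by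
        refine mul_le_mul_of_nonneg_left ?_ (Real.rpow_nonneg hK _)
        have := hψ S (Finset.Icc (-(N : ℤ)) N) a
        simp only [← hb] at this
        exact this
    _ = (K * L) ^ p * ∑ n ∈ S, ‖a n‖ ^ p := by rw [Real.mul_rpow hK hL]; ring

/-- rotations -/
theorem fb_rot {φ ψ : ℤ → ℂ} {p K : ℝ} (h : FB φ p K) (u : ℂ) (hu : ‖u‖ = 1)
    (hψ : ∀ n, ψ n = u ^ n * φ n) : FB ψ p K := by
  intro S S' a
  have hu0 : u ≠ 0 := by
    rintro rfl
    simp at hu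
  have := h S S' (fun n => a n * u ^ (-n))
  have e1 : ∑ n ∈ S, ‖a n * u ^ (-n)‖ ^ p = ∑ n ∈ S, ‖a n‖ ^ p := by
    refine Finset.sum_congr rfl fun n _ => ?_
    rw [norm_mul, norm_zpow, hu, one_zpow, mul_one]
  rw [e1] at this
  refine le_trans (le_of_eq ?_) this
  refine Finset.sum_congr rfl fun m _ => ?_
  have e2 : ∑ n ∈ S, a n * ψ (m - n) = u ^ m * ∑ n ∈ S, a n * u ^ (-n) * φ (m - n) := by
    rw [Finset.mul_sum]
    refine Finset.sum_congr rfl fun n _ => ?_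
    rw [hψ, sub_eq_add_neg, zpow_add₀ hu0]
    ring
  rw [e2, norm_mul, norm_zpow, hu, one_zpow, one_mul]

theorem fb_one {φ : ℤ → ℂ} (h0 : φ 0 = 1) (h : ∀ n, n ≠ 0 → φ n = 0) (p : ℝ) (hp : 0 < p) : FB φ p 1 := by
  intro S S' a
  rw [Real.one_rpow, one_mul]
  have e : ∀ m ∈ S', ‖∑ n ∈ S, a n * φ (m - n)‖ ^ p = if m ∈ S then ‖a m‖ ^ p else 0 := by
    intro m _
    have : ∑ n ∈ S, a n * φ (m - n) = if m ∈ S then a m else 0 := by
      rw [← Finset.sum_ite_eq S m (fun n => a n)]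
      refine Finset.sum_congr rfl fun n _ => ?_
      split_ifs with h1
      · rw [h1, sub_self, h0, mul_one]
      · rw [h _ (sub_ne_zero.2 h1), mul_zero]
    rw [this]
    split_ifs
    · rfl
    · rw [norm_zero, Real.zero_rpow hp.ne']
  rw [Finset.sum_congr rfl e, ← Finset.sum_filter]
  refine Finset.sum_le_sum_of_subset_of_nonneg ?_ fun _ _ _ => Real.rpow_nonneg (norm_nonneg _) _
  intro x hx
  exact (Finset.mem_filter.1 hx).2

end Pool.Agent.Y180.VM
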